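import Mathlib
import Pool.Agent.V11304.DS.Main

/-!
# MP_e2f147_nt, Q1 (affirmative answer)

For every `r ≥ 1` there are nonzero integers `a`, `b` with `n² ∣ a A_r(n)` and `n² ∣ b B_r(n)` for all `n ≥ 1`.
-/

namespace Pool.Agent.Results.MP_e2f147_nt.Full

open Finset

/-- `S_n^{(r)} = ∑_{k=0}^n C(n,k)² C(2k,k) (2k+1)^r`. -/
def S (r n : ℕ) : ℤ :=
  ∑ k ∈ range (n + 1), (n.choose k : ℤ) ^ 2 * ((2 * k).choose k : ℤ) * (2 * (k : ℤ) + 1) ^ r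

/-- `A_r(n) = ∑_{k=0}^{n-1} S_k^{(2r-1)}`. -/
def A (r n : ℕ) : ℤ := ∑ k ∈ range n, S (2 * r - 1) k

/-- `B_r(n) = ∑_{k=0}^{n-1} k S_k^{(r)}`. -/
def B (r n : ℕ) : ℤ := ∑ k ∈ range n, (k : ℤ) * S r k

theorem S_cast (r N n : ℕ) (h : n < N) : ((S r n : ℤ) : ℚ) =
    Pool.Agent.V11304.DS.inn N n (fun k => (2 * (k : ℚ) + 1) ^ r) := by
  rw [Pool.Agent.V11304.DS.inn_ext _ _ _ h]
  unfold S Pool.Agent.V11304.DS.inn Pool.Agent.V11304.DS.b Pool.Agent.V11304.DS.cb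
  push_cast
  rfl

/-- For every positive integer `r` there are nonzero integers `a` and `b` such that for all positive
integers `n` both `a A_r(n)` and `b B_r(n)` are divisible by `n²`. -/
theorem result : ∀ r : ℕ, 0 < r → ∃ a b : ℤ, a ≠ 0 ∧ b ≠ 0 ∧ ∀ n : ℕ, 0 < n →
    a * A r n ≡ 0 [ZMOD (n : ℤ) ^ 2] ∧ b * B r n ≡ 0 [ZMOD (n : ℤ) ^ 2] := by
  intro r hr
  obtain ⟨a, ha, h⟩ := Pool.Agent.V11304.DS.final (2 * r - 2)
  obtain ⟨b, hb, h'⟩ := Pool.Agent.V11304.DS.final (r - 1)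
  refine ⟨a, b, ha, hb, fun n _ => ⟨?_, ?_⟩⟩
  · obtain ⟨z, hz⟩ := (h n).1
    rw [show 2 * r - 2 + 1 = 2 * r - 1 by omega] at hz
    rw [Int.modEq_zero_iff_dvd]
    refine ⟨z, ?_⟩
    have e : ((A r n : ℤ) : ℚ) = Pool.Agent.V11304.DS.Sig (fun k => (2 * (k : ℚ) + 1) ^ (2 * r - 1)) n := by
      unfold A Pool.Agent.V11304.DS.Sig
      rw [Int.cast_sum]
      exact Finset.sum_congr rfl fun m hm => S_cast _ n m (mem_range.mp hm)
    rw [← e] at hz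
    exact_mod_cast hz
  · obtain ⟨z, hz⟩ := (h' n).2
    rw [show r - 1 + 1 = r by omega] at hz
    rw [Int.modEq_zero_iff_dvd]
    refine ⟨z, ?_⟩
    have e : ((B r n : ℤ) : ℚ) = Pool.Agent.V11304.DS.SigM (fun k => (2 * (k : ℚ) + 1) ^ r) n := by
      unfold B Pool.Agent.V11304.DS.SigM
      rw [Int.cast_sum]
      refine Finset.sum_congr rfl fun m hm => ?_
      rw [Int.cast_mul, S_cast _ n m (mem_range.mp hm), Int.cast_natCast]
    rw [← e] at hz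
    exact_mod_cast hz

end Pool.Agent.Results.MP_e2f147_nt.Full
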